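import Mathlib

namespace Pool.Agent.Results.MP_10bb55_an.NoRepelling
open MvPolynomial Complex

/-- the map `[F 0 : F 1 : F 2]` read in the affine chart `{u | u i = 1}` of the projective plane -/
noncomputable def chart (F : Fin 3 → MvPolynomial (Fin 3) ℂ) (i : Fin 3) (u : Fin 3 → ℂ) :
    Fin 3 → ℂ := fun j => eval u (F j) / eval u (F i)

noncomputable def F : Fin 3 → MvPolynomial (Fin 3) ℂ :=
  ![C 4 * (X 0 * X 2) + C 2 * (X 1 * X 1 - X 2 * X 2),
    C 4 * (X 1 * X 2) + C I * (X 0 * X 0 - X 2 * X 2), C 4 * (X 2 * X 2)]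

noncomputable def G (u : Fin 3 → ℂ) : Fin 3 → ℂ :=
  ![4 * (u 0 * u 2) + 2 * (u 1 * u 1 - u 2 * u 2), 4 * (u 1 * u 2) + I * (u 0 * u 0 - u 2 * u 2),
    4 * (u 2 * u 2)]

noncomputable def DG (v w : Fin 3 → ℂ) : Fin 3 → ℂ :=
  ![4 * (w 0 * v 2 + v 0 * w 2) + 4 * (v 1 * w 1 - v 2 * w 2),
    4 * (w 1 * v 2 + v 1 * w 2) + 2 * I * (v 0 * w 0 - v 2 * w 2), 8 * (v 2 * w 2)]

lemma ev (u : Fin 3 → ℂ) (j : Fin 3) : eval u (F j) = G u j := by
  fin_cases j <;> simp [F, G]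

lemma dG (j : Fin 3) : Differentiable ℂ fun u => G u j := by
  fin_cases j <;> simp [G] <;> fun_prop

lemma lG (v w : Fin 3 → ℂ) (j : Fin 3) : HasDerivAt (fun t : ℂ => G (v + t • w) j) (DG v w j) 0 := by
  have e : (fun t : ℂ => G (v + t • w) j) = fun t => G v j + t * DG v w j + t ^ 2 * G w j := by
    funext t; fin_cases j <;> simp [G, DG] <;> ring
  have i := hasDerivAt_id' (0 : ℂ)
  rw [e]
  simpa using ((i.mul_const (DG v w j)).const_add (G v j)).fun_add ((i.fun_pow 2).mul_const (G w j))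

lemma fd (i : Fin 3) (v w : Fin 3 → ℂ) (h : G v i ≠ 0) :
    fderiv ℂ (chart F i) v w = fun j => (DG v w j * G v i - G v j * DG v w i) / G v i ^ 2 := by
  have e : chart F i = fun u j => G u j / G u i := by funext u j; simp [chart, ev]
  have d : DifferentiableAt ℂ (chart F i) v := by
    rw [e]; exact differentiableAt_pi.2 fun j => by
      simpa only [div_eq_mul_inv] using (dG j v).fun_mul ((dG i v).fun_inv h)
  rw [← d.lineDeriv_eq_fderiv]
  refine HasLineDerivAt.lineDeriv ?_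
  rw [e]
  exact hasDerivAt_pi.2 fun j => by
    simpa using (lG v w j).fun_div (lG v w i) (by simpa using h)

theorem result : ∃ F : Fin 3 → MvPolynomial (Fin 3) ℂ, (∀ j, (F j).IsHomogeneous 2) ∧
    (∀ u : Fin 3 → ℂ, (∀ j, eval u (F j) = 0) → u = 0) ∧
    ∀ (i : Fin 3) (v : Fin 3 → ℂ), v i = 1 → chart F i v = v →
      ∃ (μ : ℂ) (w : Fin 3 → ℂ), ‖μ‖ < 1 ∧ w ≠ 0 ∧ w i = 0 ∧ fderiv ℂ (chart F i) v w = μ • w := by
  refine ⟨F, fun j => ?_, fun u h => ?_, fun i v hv hf => ?_⟩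
  · have q : ∀ a b : Fin 3, (X a * X b : MvPolynomial (Fin 3) ℂ).IsHomogeneous 2 := fun a b =>
      (isHomogeneous_X ℂ a).mul (isHomogeneous_X ℂ b)
    fin_cases j
    · exact ((q 0 2).C_mul _).add (((q 1 1).sub (q 2 2)).C_mul _)
    · exact ((q 1 2).C_mul _).add (((q 0 0).sub (q 2 2)).C_mul _)
    · exact (q 2 2).C_mul _
  · have h0 := h 0
    have h1 := h 1
    have h2 := h 2
    simp [ev, G] at h0 h1 h2
    simp [h2] at h0 h1
    funext j; fin_cases j <;> simp [h0, h1, h2]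
  have hc : G v i ≠ 0 := fun e => by
    have := congrFun hf i
    simp [chart, ev, e, hv] at this
  set c := G v i with hc'
  have hG : ∀ j, G v j = c * v j := fun j => by
    have := congrFun hf j
    rw [chart, ev, ev, div_eq_iff hc] at this
    rw [this, mul_comm]
  have key : ∀ (μ κ : ℂ) (w : Fin 3 → ℂ), (∀ j, DG v w j = c * μ * w j + κ * v j) →
      w - w i • v ≠ 0 → ‖μ‖ < 1 → ∃ (μ : ℂ) (w : Fin 3 → ℂ), ‖μ‖ < 1 ∧ w ≠ 0 ∧ w i = 0 ∧
        fderiv ℂ (chart F i) v w = μ • w := fun μ κ w h1 h2 h3 => by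
    refine ⟨μ, w - w i • v, h3, h2, by simp [hv], ?_⟩
    have l : ∀ j, DG v (w - w i • v) j = DG v w j - w i * (2 * G v j) := fun j => by
      fin_cases j <;> simp [G, DG] <;> ring
    rw [fd i v _ hc]
    funext j
    simp only [l, h1, ← hc', hG, hv, Pi.smul_apply, Pi.sub_apply, smul_eq_mul]
    field_simp
    ring
  have g0 := hG 0
  have g1 := hG 1
  have g2 := hG 2
  simp [G] at g0 g1 g2
  by_cases z : v 2 = 0
  · refine key 0 4 ![0, 0, 1] (fun j => by fin_cases j <;> simp [DG, z]) (fun e => ?_) (by simp)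
    simpa [z] using congrFun e 2
  have cz : c = 4 * v 2 := mul_right_cancel₀ z (by linear_combination -g2)
  have y2 : v 1 * v 1 = v 2 * v 2 := by rw [cz] at g0; linear_combination g0 / 2
  have x2 : v 0 * v 0 = v 2 * v 2 := by
    rw [cz] at g1; linear_combination (-I) * g1 + (v 0 * v 0 - v 2 * v 2) * I_mul_I
  obtain ⟨m, m1, m2⟩ : ∃ m : ℂ, 2 * (v 2 * v 2) * m ^ 2 = I * (v 0 * v 1) ∧ ‖1 - m‖ < 1 := by
    have n : ∀ s : ℝ, s ^ 2 = 1 → ‖1 - (1 + s * I) / 2‖ < 1 := fun s hs => by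
      refine lt_of_pow_lt_pow_left₀ 2 zero_le_one ?_
      rw [Complex.sq_norm, normSq_apply]; simp; nlinarith
    have : (v 0 * v 1 - v 2 * v 2) * (v 0 * v 1 + v 2 * v 2) = 0 := by
      linear_combination (v 1 * v 1) * x2 + (v 2 * v 2) * y2
    rcases mul_eq_zero.1 this with h | h
    · exact ⟨_, by push_cast; linear_combination (-I) * h + (v 2 * v 2 / 2) * I_mul_I,
        n 1 (by norm_num)⟩
    · exact ⟨_, by push_cast; linear_combination (-I) * h + (v 2 * v 2 / 2) * I_mul_I,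
        n (-1) (by norm_num)⟩
  refine key (1 - m) 0 ![v 1, -(v 2 * m), 0] (fun j => ?_) (fun e => ?_) m2
  · fin_cases j <;> simp [DG, cz]
    · ring
    · linear_combination (-2) * m1
  · have a := congrFun e 2
    have b := congrFun e 0
    simp [z] at a
    simp [a] at b
    simp [b, z] at y2

end Pool.Agent.Results.MP_10bb55_an.NoRepelling
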